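import Pool.Agent.Helper75.IP.Defs
import Pool.Agent.Helper26.CG.Marg

/-!
# Independent powers, pieces I1, I2, K5
-/

set_option autoImplicit false
open MeasureTheory Filter Topology ProbabilityTheory Helper35.AG
open scoped ENNReal

namespace Helper26.IP

open Helper75.IP

variable {U : Ultrafilter ℕ}

theorem inv_conv {μ ν : Measure Tor} [IsProbabilityMeasure μ] [IsProbabilityMeasure ν]
    (hμ : Inv μ) (hν : Inv ν) : Inv (conv μ ν) :=
  ⟨Helper26.CG.mp_conv hμ.two hν.two, Helper26.CG.mp_conv hμ.three hν.three⟩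

theorem mp_dirac {n : ℕ} (h : Measurable fun x : Tor => n • x) :
    MeasurePreserving (fun x : Tor => n • x) (Measure.dirac (0 : Tor)) (Measure.dirac 0) := by
  refine ⟨h, ?_⟩
  rw [Measure.map_dirac' h]
  simp

/-- **I1** -/
theorem inv_cp {μ : Measure Tor} [IsProbabilityMeasure μ] (hμ : Inv μ) (n : ℕ) :
    Inv (cp μ n) := by
  induction n with
  | zero => exact ⟨mp_dirac hμ.two.measurable, mp_dirac hμ.three.measurable⟩
  | succ n ih => exact inv_conv hμ ih

/-- **I2** an invariant measure below a multiple of a convolution: the density and the two marginals -/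
theorem split {μ α ρ : Measure Tor} [IsProbabilityMeasure μ] [IsProbabilityMeasure α]
    [IsProbabilityMeasure ρ] (hμ : Inv μ) (hα : Inv α) (hρ : Inv ρ) (hext : Ext μ)
    {c : ℝ≥0∞} (hc : c ≠ ⊤) (hle : ρ ≤ c • conv μ α) :
    ∃ J : Measure (Tor × Tor), IsProbabilityMeasure J ∧ J ≤ c • μ.prod α ∧
      J.map (fun p => p.1 + p.2) = ρ ∧ J.map Prod.fst = μ ∧ Inv (J.map Prod.snd) ∧
      J.map Prod.snd ≤ c • α := by
  obtain ⟨C, g, hC1, hg, h0, hC, hlam, hfst⟩ := Helper26.CG.marg hμ hα hρ hext hc hle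
  have hm : Measurable fun p : Tor × Tor => p.1 + p.2 := by fun_prop
  have hF : Measurable fun p : Tor × Tor => ENNReal.ofReal (g (p.1 + p.2)) := by fun_prop
  have h2 := Helper26.CG.inv_density (Helper26.CG.mp_conv hμ.two hα.two) hρ.two hg h0 hC hlam
  have h3 := Helper26.CG.inv_density (Helper26.CG.mp_conv hμ.three hα.three) hρ.three hg h0 hC
    hlam
  have hP2 := Helper26.CG.mp_PP hμ.two hα.two hg h2
  have hP3 := Helper26.CG.mp_PP hμ.three hα.three hg h3
  have hbd : ∀ᵐ x ∂(conv μ α), ENNReal.ofReal (g x) ≤ c := by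
    refine ae_le_of_forall_setLIntegral_le_of_sigmaFinite (by fun_prop) fun s hs _ => ?_
    rw [← withDensity_apply _ hs, ← hlam, setLIntegral_const]
    exact hle s
  have hbd' : ∀ᵐ p ∂(μ.prod α), ENNReal.ofReal (g (p.1 + p.2)) ≤ c :=
    ae_of_ae_map hm.aemeasurable hbd
  have hJle : Helper26.CG.PP μ α g ≤ c • μ.prod α := by
    rw [← withDensity_const]
    exact withDensity_mono hbd'
  have hJprob : IsProbabilityMeasure (Helper26.CG.PP μ α g) := by
    refine ⟨?_⟩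
    have h4 : ρ Set.univ = 1 := measure_univ
    rw [hlam, withDensity_apply _ MeasurableSet.univ, Measure.restrict_univ, conv,
      lintegral_map (by fun_prop) hm] at h4
    rw [Helper26.CG.PP, withDensity_apply _ MeasurableSet.univ, Measure.restrict_univ]
    exact h4
  have hinv : ∀ n : ℕ, Measurable (fun x : Tor => n • x) →
      (Helper26.CG.PP μ α g).map (Prod.map (fun x : Tor => n • x) (fun x : Tor => n • x)) =
        Helper26.CG.PP μ α g →
      MeasurePreserving (fun x : Tor => n • x) ((Helper26.CG.PP μ α g).map Prod.snd)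
        ((Helper26.CG.PP μ α g).map Prod.snd) := by
    intro n hn hP
    refine ⟨hn, ?_⟩
    rw [Measure.map_map hn measurable_snd]
    conv_rhs => rw [← hP, Measure.map_map measurable_snd (hn.prodMap hn)]
    rfl
  refine ⟨Helper26.CG.PP μ α g, hJprob, hJle, ?_, hfst, ⟨hinv 2 hμ.two.measurable hP2,
    hinv 3 hμ.three.measurable hP3⟩, ?_⟩
  · ext s hs
    conv_rhs => rw [hlam]
    rw [Measure.map_apply hm hs, Helper26.CG.PP, withDensity_apply _ (hm hs),
      withDensity_apply _ hs, ← lintegral_indicator (hm hs), ← lintegral_indicator hs, conv,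
      lintegral_map ((by fun_prop : Measurable fun x => ENNReal.ofReal (g x)).indicator hs) hm]
    rfl
  · have h6 : (Helper26.CG.PP μ α g).map Prod.snd ≤ (c • μ.prod α).map Prod.snd :=
      Measure.map_mono hJle measurable_snd
    rw [Measure.map_smul, Measure.map_snd_prod, measure_univ, one_smul] at h6
    exact h6

theorem norm_f (j : ℤ) (x : Tor) : ‖(fourier j x : ℂ)‖ = 1 := by
  simp [fourier_apply]

theorem fourier_smul (j : ℤ) (n : ℕ) (x : Tor) :
    (fourier j (n • x) : ℂ) = fourier (j * n) x := by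
  rw [fourier_apply, fourier_apply]
  congr 2
  rw [← natCast_zsmul, ← mul_smul]

/-- **K5** rigidity or a gap -/
theorem rigid_of_one (hU : (U : Filter ℕ) ≤ atTop) {μ : Measure Tor} [IsProbabilityMeasure μ]
    {κ : Kernel Tor Tor} [IsMarkovKernel κ] (h : IsLim U μ κ) {j : ℤ} (hj : j ≠ 0)
    (h1 : 1 ≤ ∫ w, ‖∫ y, (fourier j y : ℂ) ∂(κ w)‖ ^ 2 ∂μ) : Rigid μ := by
  intro ε hε
  have hFm : StronglyMeasurable fun w : Tor => ∫ y, (fourier j y : ℂ) ∂(κ w) := by
    have h2 : StronglyMeasurable (Function.uncurry fun (w : Tor) (y : Tor) =>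
        (fourier j y : ℂ)) := by
      refine Continuous.stronglyMeasurable ?_
      exact (map_continuous (fourier j)).comp continuous_snd
    exact StronglyMeasurable.integral_kernel_prod_right h2
  obtain ⟨F, hFdef⟩ : ∃ F : Tor → ℂ, F = fun w => ∫ y, (fourier j y : ℂ) ∂(κ w) := ⟨_, rfl⟩
  have hFm' : StronglyMeasurable F := hFdef ▸ hFm
  have hF1 : ∀ w, ‖F w‖ ≤ 1 := by
    intro w
    rw [hFdef]
    refine (norm_integral_le_integral_norm _).trans ?_
    simp [norm_f]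
  have hFi : Integrable F μ :=
    Integrable.of_bound hFm'.aestronglyMeasurable 1 (Eventually.of_forall hF1)
  have hFc : StronglyMeasurable fun w => starRingEnd ℂ (F w) :=
    Complex.continuous_conj.comp_stronglyMeasurable hFm'
  have hFci : Integrable (fun w => starRingEnd ℂ (F w)) μ :=
    Integrable.of_bound hFc.aestronglyMeasurable 1 (Eventually.of_forall fun w => by
      rw [RCLike.norm_conj]
      exact hF1 w)
  have hFs : Integrable (fun w => ‖F w‖ ^ 2) μ :=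
    Integrable.of_bound (hFm'.norm.pow 2).aestronglyMeasurable 1
      (Eventually.of_forall fun w => by
        rw [Real.norm_eq_abs, abs_of_nonneg (by positivity)]
        exact pow_le_one₀ (norm_nonneg _) (hF1 w))
  have h1' : 1 ≤ ∫ w, ‖F w‖ ^ 2 ∂μ := by
    rw [hFdef]
    exact h1
  -- the weak limit
  have hlim := h j (fun w => starRingEnd ℂ (F w)) hFci
  have hlim' : Tendsto (fun k : ℕ => (∫ w, starRingEnd ℂ (F w) * fourier j ((2 ^ k : ℕ) • w) ∂μ).re)
      U (𝓝 (∫ w, ‖F w‖ ^ 2 ∂μ)) := by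
    have h2 := (Complex.continuous_re.tendsto _).comp hlim
    have e : (∫ w, starRingEnd ℂ (F w) * ∫ y, (fourier j y : ℂ) ∂(κ w) ∂μ).re =
        ∫ w, ‖F w‖ ^ 2 ∂μ := by
      have e1 : ∀ w, starRingEnd ℂ (F w) * ∫ y, (fourier j y : ℂ) ∂(κ w) =
          ((‖F w‖ ^ 2 : ℝ) : ℂ) := by
        intro w
        have : (∫ y, (fourier j y : ℂ) ∂(κ w)) = F w := by rw [hFdef]
        rw [this, mul_comm, Complex.mul_conj, Complex.normSq_eq_norm_sq]
      simp only [e1]
      have e2 : ∫ w, ((‖F w‖ ^ 2 : ℝ) : ℂ) ∂μ = ((∫ w, ‖F w‖ ^ 2 ∂μ : ℝ) : ℂ) :=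
        integral_ofReal
      rw [e2, Complex.ofReal_re]
    rw [e] at h2
    exact h2
  have hev : ∀ᶠ k in (U : Filter ℕ), 1 - ε / 8 <
      (∫ w, starRingEnd ℂ (F w) * fourier j ((2 ^ k : ℕ) • w) ∂μ).re :=
    hlim'.eventually (lt_mem_nhds (by linarith))
  have hgood : ∀ k : ℕ, 1 - ε / 8 <
      (∫ w, starRingEnd ℂ (F w) * fourier j ((2 ^ k : ℕ) • w) ∂μ).re →
      ∫ w, ‖(fourier j ((2 ^ k : ℕ) • w) : ℂ) - F w‖ ^ 2 ∂μ < ε / 4 := by
    intro k hk
    have hcont : Continuous fun w : Tor => (fourier j ((2 ^ k : ℕ) • w) : ℂ) :=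
      (map_continuous (fourier j)).comp (continuous_const_smul _)
    have hpi : Integrable (fun w => starRingEnd ℂ (F w) * fourier j ((2 ^ k : ℕ) • w)) μ := by
      refine Integrable.of_bound (hFc.mul hcont.stronglyMeasurable).aestronglyMeasurable 1
        (Eventually.of_forall fun w => ?_)
      rw [norm_mul, norm_f, mul_one, RCLike.norm_conj]
      exact hF1 w
    have hpt : ∀ w, ‖(fourier j ((2 ^ k : ℕ) • w) : ℂ) - F w‖ ^ 2 =
        1 + ‖F w‖ ^ 2 - 2 * (starRingEnd ℂ (F w) * fourier j ((2 ^ k : ℕ) • w)).re := by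
      intro w
      have e1 := norm_sub_sq (𝕜 := ℂ) (fourier j ((2 ^ k : ℕ) • w) : ℂ) (F w)
      rw [e1, norm_f]
      have e2 : RCLike.re (inner ℂ (fourier j ((2 ^ k : ℕ) • w) : ℂ) (F w)) =
          (starRingEnd ℂ (F w) * fourier j ((2 ^ k : ℕ) • w)).re := by
        rw [← inner_conj_symm]
        rw [RCLike.conj_re]
        simp [mul_comm]
      rw [e2]
      ring
    have hre : ∫ w, (starRingEnd ℂ (F w) * fourier j ((2 ^ k : ℕ) • w)).re ∂μ =
        (∫ w, starRingEnd ℂ (F w) * fourier j ((2 ^ k : ℕ) • w) ∂μ).re := by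
      exact integral_re hpi
    have hrei : Integrable (fun w => 2 * (starRingEnd ℂ (F w) *
        fourier j ((2 ^ k : ℕ) • w)).re) μ := hpi.re.const_mul 2
    have hFle : ∫ w, ‖F w‖ ^ 2 ∂μ ≤ 1 := by
      have := integral_mono (μ := μ) hFs (integrable_const (1 : ℝ))
        (fun w => pow_le_one₀ (norm_nonneg _) (hF1 w))
      simpa using this
    have hsum : ∫ w, ‖(fourier j ((2 ^ k : ℕ) • w) : ℂ) - F w‖ ^ 2 ∂μ =
        1 + ∫ w, ‖F w‖ ^ 2 ∂μ -
          2 * (∫ w, starRingEnd ℂ (F w) * fourier j ((2 ^ k : ℕ) • w) ∂μ).re := by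
      simp only [hpt]
      have i1 : Integrable (fun w => 1 + ‖F w‖ ^ 2) μ := (integrable_const _).add hFs
      rw [integral_sub i1 hrei, integral_add (integrable_const _) hFs, integral_const_mul, hre]
      simp
    rw [hsum]
    linarith
  -- two different good times
  have hinf : ∃ k l : ℕ, k < l ∧
      (1 - ε / 8 < (∫ w, starRingEnd ℂ (F w) * fourier j ((2 ^ k : ℕ) • w) ∂μ).re) ∧
      (1 - ε / 8 < (∫ w, starRingEnd ℂ (F w) * fourier j ((2 ^ l : ℕ) • w) ∂μ).re) := by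
    obtain ⟨k, hk⟩ := hev.exists
    have h2 : ∀ᶠ l in (U : Filter ℕ), k < l := hU (eventually_gt_atTop k)
    obtain ⟨l, hl, hl'⟩ := (hev.and h2).exists
    exact ⟨k, l, hl', hk, hl⟩
  obtain ⟨k, l, hkl, hk, hl⟩ := hinf
  have hk' := hgood k hk
  have hl' := hgood l hl
  have hpow : (2 : ℤ) ^ k < 2 ^ l := pow_lt_pow_right₀ (by norm_num) hkl
  refine ⟨j * (2 ^ l - 2 ^ k), mul_ne_zero hj (by omega), ?_⟩
  have hint : ∀ i : ℕ, Integrable (fun w => ‖(fourier j ((2 ^ i : ℕ) • w) : ℂ) - F w‖ ^ 2) μ := by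
    intro i
    have hcont : Continuous fun w : Tor => (fourier j ((2 ^ i : ℕ) • w) : ℂ) :=
      (map_continuous (fourier j)).comp (continuous_const_smul _)
    refine Integrable.of_bound
      ((hcont.stronglyMeasurable.sub hFm').norm.pow 2).aestronglyMeasurable 4
      (Eventually.of_forall fun w => ?_)
    rw [Real.norm_eq_abs, abs_of_nonneg (by positivity)]
    have h3 : ‖(fourier j ((2 ^ i : ℕ) • w) : ℂ) - F w‖ ≤ 2 := by
      refine (norm_sub_le _ _).trans ?_
      rw [norm_f]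
      linarith [hF1 w]
    calc _ ≤ (2 : ℝ) ^ 2 := pow_le_pow_left₀ (norm_nonneg _) h3 2
      _ = 4 := by norm_num
  have hpt : ∀ w : Tor, ‖(fourier (j * (2 ^ l - 2 ^ k)) w : ℂ) - 1‖ ^ 2 ≤
      2 * ‖(fourier j ((2 ^ l : ℕ) • w) : ℂ) - F w‖ ^ 2 +
      2 * ‖(fourier j ((2 ^ k : ℕ) • w) : ℂ) - F w‖ ^ 2 := by
    intro w
    have e1 : (fourier j ((2 ^ l : ℕ) • w) : ℂ) =
        fourier (j * (2 ^ l - 2 ^ k)) w * fourier j ((2 ^ k : ℕ) • w) := by
      rw [fourier_smul, fourier_smul, ← fourier_add]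
      congr 1
      push_cast
      ring
    have e2 : ‖(fourier (j * (2 ^ l - 2 ^ k)) w : ℂ) - 1‖ =
        ‖(fourier j ((2 ^ l : ℕ) • w) : ℂ) - fourier j ((2 ^ k : ℕ) • w)‖ := by
      rw [e1]
      have : (fourier (j * (2 ^ l - 2 ^ k)) w : ℂ) * fourier j ((2 ^ k : ℕ) • w) -
          fourier j ((2 ^ k : ℕ) • w) =
          ((fourier (j * (2 ^ l - 2 ^ k)) w : ℂ) - 1) * fourier j ((2 ^ k : ℕ) • w) := by ring
      rw [this, norm_mul, norm_f, mul_one]
    rw [e2]
    have e3 : (fourier j ((2 ^ l : ℕ) • w) : ℂ) - fourier j ((2 ^ k : ℕ) • w) =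
        ((fourier j ((2 ^ l : ℕ) • w) : ℂ) - F w) - ((fourier j ((2 ^ k : ℕ) • w) : ℂ) - F w) := by
      ring
    rw [e3]
    have e4 := norm_sub_le ((fourier j ((2 ^ l : ℕ) • w) : ℂ) - F w)
      ((fourier j ((2 ^ k : ℕ) • w) : ℂ) - F w)
    have e5 := pow_le_pow_left₀ (norm_nonneg _) e4 2
    nlinarith [sq_nonneg (‖(fourier j ((2 ^ l : ℕ) • w) : ℂ) - F w‖ -
      ‖(fourier j ((2 ^ k : ℕ) • w) : ℂ) - F w‖)]
  have hLi : Integrable (fun w : Tor => ‖(fourier (j * (2 ^ l - 2 ^ k)) w : ℂ) - 1‖ ^ 2) μ := by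
    refine Integrable.of_bound (Continuous.aestronglyMeasurable
      (((map_continuous (fourier _)).sub continuous_const).norm.pow 2)) 4
      (Eventually.of_forall fun w => ?_)
    rw [Real.norm_eq_abs, abs_of_nonneg (by positivity)]
    have h3 : ‖(fourier (j * (2 ^ l - 2 ^ k)) w : ℂ) - 1‖ ≤ 2 := by
      refine (norm_sub_le _ _).trans ?_
      rw [norm_f, norm_one]
      norm_num
    calc _ ≤ (2 : ℝ) ^ 2 := pow_le_pow_left₀ (norm_nonneg _) h3 2
      _ = 4 := by norm_num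
  have hfin := integral_mono (μ := μ) hLi (((hint l).const_mul 2).add ((hint k).const_mul 2)) hpt
  have hsum2 : ∫ w, (2 * ‖(fourier j ((2 ^ l : ℕ) • w) : ℂ) - F w‖ ^ 2 +
      2 * ‖(fourier j ((2 ^ k : ℕ) • w) : ℂ) - F w‖ ^ 2) ∂μ =
      2 * ∫ w, ‖(fourier j ((2 ^ l : ℕ) • w) : ℂ) - F w‖ ^ 2 ∂μ +
      2 * ∫ w, ‖(fourier j ((2 ^ k : ℕ) • w) : ℂ) - F w‖ ^ 2 ∂μ := by
    rw [integral_add ((hint l).const_mul 2) ((hint k).const_mul 2), integral_const_mul,
      integral_const_mul]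
  have hfin' : ∫ w, ‖(fourier (j * (2 ^ l - 2 ^ k)) w : ℂ) - 1‖ ^ 2 ∂μ ≤
      ∫ w, (2 * ‖(fourier j ((2 ^ l : ℕ) • w) : ℂ) - F w‖ ^ 2 +
      2 * ‖(fourier j ((2 ^ k : ℕ) • w) : ℂ) - F w‖ ^ 2) ∂μ := hfin
  rw [hsum2] at hfin'
  linarith

end Helper26.IP
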